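import Pool.Agent.H84.Rai

namespace Pool.Agent.Results.MP_6f516b_lc.NotLe

open Pool.Agent.H84.RaiDefs Pool.Agent.H84.BeqDefs

theorem result (h : cof N < cov SN) : ¬ cov R ≤ cof N :=
  fun h' => not_le.2 h (Pool.Agent.H84.Rai.cov_le.trans h')

end Pool.Agent.Results.MP_6f516b_lc.NotLe
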